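import Pool.Agent.Q57.QM.Stm

/-! # QM-B2: the generic points of the exceptional curve -/

set_option autoImplicit false

namespace Pool.Agent.Q24.QM

open MvPolynomial Pool.Agent.W428.MOT Pool.Agent.TH192.MT Pool.Agent.Q57.QM
open Pool.Agent.W574.SM (chart chartI)

/-- every element of the algebraic closure is a complex number -/
theorem alg_surj (x : AlgebraicClosure ℂ) : ∃ c : ℂ, algebraMap ℂ (AlgebraicClosure ℂ) c = x :=
  (IsAlgClosed.algebraMap_bijective_of_isIntegral (k := ℂ) (K := AlgebraicClosure ℂ)).2 x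

theorem vn_coeff {F : Type} [Field F] {k l : ℕ} {a : PowerSeries F} (h : Vn k a)
    (h' : PowerSeries.coeff k a ≠ 0) (hl : Vn l a) (hl' : PowerSeries.coeff l a ≠ 0) : l = k := by
  rcases lt_trichotomy l k with h1 | h1 | h1
  · exact absurd (h l h1) hl'
  · exact h1
  · exact absurd (hl k h1) h'

/-- the constant coefficient of the value at an arc with the origin `0` -/
theorem coeff0_aeval (P : MvPolynomial (Fin 2) ℂ) (δ : Arc ℂ (Fin 2))
    (hδ : ∀ i, PowerSeries.coeff 0 (δ i) = 0) :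
    PowerSeries.coeff 0 (aeval δ P) = algebraMap ℂ (AlgebraicClosure ℂ) (constantCoeff P) := by
  induction P using MvPolynomial.induction_on with
  | C a =>
    rw [aeval_C, constantCoeff_C, PowerSeries.coeff_zero_eq_constantCoeff_apply,
      PowerSeries.algebraMap_apply, PowerSeries.constantCoeff_C]
  | add p q hp hq => rw [map_add, map_add, hp, hq, map_add, map_add]
  | mul_X p i hp =>
    rw [map_mul, aeval_X, PowerSeries.coeff_zero_eq_constantCoeff_apply, map_mul,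
      ← PowerSeries.coeff_zero_eq_constantCoeff_apply (δ i), hδ i, mul_zero, map_mul,
      constantCoeff_X, mul_zero, map_zero]

/-- **The order of the family.** -/
theorem ord_fam {r : ℕ} (g : Fin r → MvPolynomial (Fin 2) ℂ)
    (gc : ℂ → Fin r → MvPolynomial (Fin 2) ℂ) (m : ℕ)
    (hgc : ∀ c j, aeval (chart c) (g j) = X 0 ^ m * gc c j) (S : Finset ℂ)
    (hS : ∀ c ∉ S, ∃ j, constantCoeff (gc c j) ≠ 0) {k : ℕ} (hk : 1 ≤ k) {γ : Arc ℂ (Fin 2)}
    (hγ : Er S k γ) (T : ℕ) : (∀ j, Vn T (aeval γ (g j))) ↔ T ≤ m * k := by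
  obtain ⟨h0, h0', h1, h2⟩ := hγ
  obtain ⟨u0, hu0⟩ := vn_iff.1 h0
  obtain ⟨u1, hu1⟩ := vn_iff.1 h1
  have hc0 : PowerSeries.coeff k (γ 0) = PowerSeries.constantCoeff u0 := by
    have h3 := PowerSeries.coeff_X_pow_mul u0 k 0
    rw [Nat.zero_add] at h3
    rw [hu0, h3, PowerSeries.coeff_zero_eq_constantCoeff_apply]
  have hc1 : PowerSeries.coeff k (γ 1) = PowerSeries.constantCoeff u1 := by
    have h3 := PowerSeries.coeff_X_pow_mul u1 k 0
    rw [Nat.zero_add] at h3
    rw [hu1, h3, PowerSeries.coeff_zero_eq_constantCoeff_apply]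
  rw [hc0] at h0'
  obtain ⟨c, hc⟩ := alg_surj (PowerSeries.constantCoeff u1 / PowerSeries.constantCoeff u0)
  have hcS : c ∉ S := by
    intro hcS
    apply h2 c hcS
    rw [hc0, hc1, hc, div_mul_cancel₀ _ h0']
  obtain ⟨j0, hj0⟩ := hS c hcS
  have huinv : u0 * u0⁻¹ = 1 := PowerSeries.mul_inv_cancel u0 h0'
  obtain ⟨y, hy⟩ : ∃ y : PowerSeries (AlgebraicClosure ℂ),
      y = u1 * u0⁻¹ - PowerSeries.C (algebraMap ℂ (AlgebraicClosure ℂ) c) := ⟨_, rfl⟩
  have hy1 : γ 1 = γ 0 * (y + PowerSeries.C (algebraMap ℂ (AlgebraicClosure ℂ) c)) := by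
    rw [hy, sub_add_cancel, hu0, hu1]
    calc PowerSeries.X ^ k * u1 = PowerSeries.X ^ k * (u0 * u0⁻¹) * u1 := by rw [huinv, mul_one]
      _ = PowerSeries.X ^ k * u0 * (u1 * u0⁻¹) := by ring
  have hy0 : PowerSeries.coeff 0 y = 0 := by
    rw [PowerSeries.coeff_zero_eq_constantCoeff_apply, hy, map_sub, map_mul,
      PowerSeries.constantCoeff_inv, PowerSeries.constantCoeff_C, hc, div_eq_mul_inv, sub_self]
  obtain ⟨δ, hδ⟩ : ∃ δ : Arc ℂ (Fin 2), δ = ![γ 0, y] := ⟨_, rfl⟩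
  have hδ0 : δ 0 = γ 0 := by rw [hδ]; rfl
  have hδ1 : δ 1 = y := by rw [hδ]; rfl
  have hval : ∀ j, aeval γ (g j) = γ 0 ^ m * aeval δ (gc c j) := by
    intro j
    have h3 : aeval γ (g j) = aeval δ (aeval (chart c) (g j)) := by
      rw [← AlgHom.comp_apply]
      congr 1
      refine MvPolynomial.algHom_ext fun i => ?_
      rw [AlgHom.comp_apply, aeval_X, aeval_X]
      fin_cases i
      · change γ 0 = aeval δ (X 0)
        rw [aeval_X, hδ0]
      · change γ 1 = aeval δ (X 0 * (X 1 + C c))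
        rw [map_mul, map_add, aeval_X, aeval_X, aeval_C, hδ0, hδ1, hy1,
          PowerSeries.algebraMap_apply]
    rw [h3, hgc, map_mul, map_pow, aeval_X, hδ0]
  have hw : ∀ i, PowerSeries.coeff 0 (δ i) = 0 := by
    intro i
    fin_cases i
    · change PowerSeries.coeff 0 (δ 0) = 0
      rw [hδ0]
      exact h0 0 (by omega)
    · change PowerSeries.coeff 0 (δ 1) = 0
      rw [hδ1]
      exact hy0
  have hval2 : ∀ j, aeval γ (g j) = PowerSeries.X ^ (m * k) * (u0 ^ m * aeval δ (gc c j)) := by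
    intro j
    rw [hval j, hu0, mul_pow, ← pow_mul, mul_comm k m]
    ring
  constructor
  · intro h
    by_contra hcon
    push Not at hcon
    have h3 := h j0 (m * k) hcon
    rw [hval2 j0] at h3
    have h4 := PowerSeries.coeff_X_pow_mul (u0 ^ m * aeval δ (gc c j0)) (m * k) 0
    rw [Nat.zero_add] at h4
    rw [h4, PowerSeries.coeff_zero_eq_constantCoeff_apply, map_mul, map_pow,
      ← PowerSeries.coeff_zero_eq_constantCoeff_apply (aeval δ (gc c j0)),
      coeff0_aeval _ _ hw] at h3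
    rcases mul_eq_zero.1 h3 with h5 | h5
    · exact absurd h5 (pow_ne_zero m h0')
    · exact hj0 ((map_eq_zero _).1 h5)
  · intro h j
    rw [vn_iff, hval2 j]
    exact (pow_dvd_pow _ h).mul_right _

theorem oc_iff {k a l : ℕ} (hk : 1 ≤ k) {u : PowerSeries (AlgebraicClosure ℂ)}
    (h : Vn k u) (h' : PowerSeries.coeff k u ≠ 0) : OC a l u ↔ l = if a = 0 then 0 else k := by
  unfold OC
  by_cases ha : a = 0
  · rw [if_pos ha, if_pos ha]
    exact ⟨fun h1 => h1.1, fun h1 => ⟨h1, fun j hj => h j (by omega)⟩⟩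
  · rw [if_neg ha, if_neg ha]
    constructor
    · rintro ⟨_, h2, h3⟩
      exact vn_coeff h h' h2 h3
    · rintro rfl
      exact ⟨hk, h, h'⟩

theorem qm_restk : StErVol → StRestK := by
  intro hEr R _ M v hv r g gc m hm hgc S hS0 hS a0 n0 a1 n1 k B N hn0 hn1 ha0 ha1 hk hB
  classical
  obtain ⟨κ0, hκ0⟩ : ∃ κ0, κ0 = if a0 = 0 then 0 else k := ⟨_, rfl⟩
  obtain ⟨κ1, hκ1⟩ : ∃ κ1, κ1 = if a1 = 0 then 0 else k := ⟨_, rfl⟩
  obtain ⟨E, hE⟩ : ∃ E, E = vo M v (Er S k) := ⟨_, rfl⟩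
  have hRg : ∀ k0 k1 T, vo M v (Rg g a0 k0 a1 k1 (Er S k) T) =
      if k0 = κ0 ∧ k1 = κ1 ∧ T ≤ m * k then E else 0 := by
    intro k0 k1 T
    have h1 : ∀ γ, Rg g a0 k0 a1 k1 (Er S k) T γ ↔
        (Er S k γ ∧ k0 = κ0 ∧ k1 = κ1 ∧ T ≤ m * k) := by
      intro γ
      unfold Rg
      refine and_congr_right fun hγ => ?_
      have h2 : PowerSeries.coeff k (γ 1) ≠ 0 := by
        have h3 := hγ.2.2.2 0 hS0
        rw [map_zero, zero_mul] at h3
        exact h3
      rw [oc_iff hk hγ.1 hγ.2.1, oc_iff hk hγ.2.2.1 h2,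
        ord_fam g gc m hgc S hS hk hγ T, hκ0, hκ1]
    by_cases h : k0 = κ0 ∧ k1 = κ1 ∧ T ≤ m * k
    · rw [if_pos h, hE]
      exact vo_congr M fun γ => by rw [h1]; exact ⟨fun h' => h'.1, fun h' => ⟨h', h⟩⟩
    · rw [if_neg h]
      exact vo_false M hv fun γ h' => h ((h1 γ).1 h').2
  have e1 : a0 * κ0 + a1 * κ1 = (a0 + a1) * k := by
    rw [hκ0, hκ1, add_mul]
    congr 1
    · by_cases h : a0 = 0
      · rw [if_pos h, h, mul_zero, zero_mul]
      · rw [if_neg h]
    · by_cases h : a1 = 0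
      · rw [if_pos h, h, mul_zero, zero_mul]
      · rw [if_neg h]
  have e2 : (n0 - 1) * κ0 + (n1 - 1) * κ1 = (n0 - 1) * k + (n1 - 1) * k := by
    rw [hκ0, hκ1]
    congr 1
    · by_cases h : a0 = 0
      · rw [if_pos h, ha0 h, mul_zero, Nat.sub_self, zero_mul]
      · rw [if_neg h]
    · by_cases h : a1 = 0
      · rw [if_pos h, ha1 h, mul_zero, Nat.sub_self, zero_mul]
      · rw [if_neg h]
  have hdv0 : ∀ k0 k1, ¬ (k0 = κ0 ∧ k1 = κ1) → dv M v g a0 n0 a1 n1 (Er S k) k0 k1 N = 0 := by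
    intro k0 k1 h
    unfold dv
    rw [hRg, hRg, if_neg (fun h' => h ⟨h'.1, h'.2.1⟩), if_neg (fun h' => h ⟨h'.1, h'.2.1⟩),
      sub_self, mul_zero]
  have hdv1 : dv M v g a0 n0 a1 n1 (Er S k) κ0 κ1 N =
      if (a0 + a1 + m) * k = N then v ^ ((n0 - 1) * k + (n1 - 1) * k) * E else 0 := by
    unfold dv
    rw [hRg, hRg, e1, e2]
    have e3 : (a0 + a1 + m) * k = (a0 + a1) * k + m * k := by ring
    by_cases h : (a0 + a1 + m) * k = N
    · rw [if_pos h, if_pos ⟨rfl, rfl, by omega⟩, if_neg (fun h' => by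
        have := h'.2.2
        omega), sub_zero]
    · rw [if_neg h]
      by_cases h' : N ≤ (a0 + a1 + m) * k
      · rw [if_pos ⟨rfl, rfl, by omega⟩, if_pos ⟨rfl, rfl, by omega⟩, sub_self, mul_zero]
      · rw [if_neg (fun h'' => by
          have := h''.2.2
          omega), if_neg (fun h'' => by
          have := h''.2.2
          omega), sub_self, mul_zero]
  unfold sv
  by_cases hlt : κ0 < B ∧ κ1 < B
  · have h1 : ∑ k0 ∈ Finset.range B, ∑ k1 ∈ Finset.range B,
        dv M v g a0 n0 a1 n1 (Er S k) k0 k1 N = dv M v g a0 n0 a1 n1 (Er S k) κ0 κ1 N := by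
      rw [Finset.sum_eq_single κ0, Finset.sum_eq_single κ1]
      · intro k1 _ hk1
        exact hdv0 _ _ fun h => hk1 h.2
      · intro h
        exact absurd (Finset.mem_range.2 hlt.2) h
      · intro k0 _ hk0
        exact Finset.sum_eq_zero fun k1 _ => hdv0 _ _ fun h => hk0 h.1
      · intro h
        exact absurd (Finset.mem_range.2 hlt.1) h
    rw [h1, hdv1]
    by_cases h : (a0 + a1 + m) * k = N
    · rw [if_pos h, if_pos h, hE, hEr M v hv S k]
      have e4 : (n0 - 1) * k + (n1 - 1) * k + 2 * (k + 1) = (n0 + n1) * k + 2 := by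
        obtain ⟨n0', rfl⟩ : ∃ n', n0 = n' + 1 := ⟨n0 - 1, by omega⟩
        obtain ⟨n1', rfl⟩ : ∃ n', n1 = n' + 1 := ⟨n1 - 1, by omega⟩
        simp only [Nat.add_sub_cancel]
        ring
      have e5 : v ^ ((n0 - 1) * k + (n1 - 1) * k) * v ^ (2 * (k + 1)) = v ^ ((n0 + n1) * k) * v ^ 2 := by
        rw [← pow_add, e4, pow_add]
      have e6 : M.L ^ 2 * v ^ 2 = 1 := by rw [← mul_pow, hv, one_pow]
      linear_combination (M.L ^ 2 * (M.L - 1) * (M.L - S.card)) * e5 +
        ((M.L - 1) * (M.L - S.card) * v ^ ((n0 + n1) * k)) * e6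
    · rw [if_neg h, if_neg h, mul_zero]
  · have h1 : ∑ k0 ∈ Finset.range B, ∑ k1 ∈ Finset.range B,
        dv M v g a0 n0 a1 n1 (Er S k) k0 k1 N = 0 := by
      refine Finset.sum_eq_zero fun k0 hk0 => Finset.sum_eq_zero fun k1 hk1 => hdv0 _ _ fun h => ?_
      rw [Finset.mem_range] at hk0 hk1
      exact hlt ⟨by rw [← h.1]; exact hk0, by rw [← h.2]; exact hk1⟩
    rw [h1, mul_zero]
    have hkB : B ≤ k := by
      by_contra hcon
      push Not at hcon
      apply hlt
      rw [hκ0, hκ1]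
      constructor
      · split_ifs
        · omega
        · exact hcon
      · split_ifs
        · omega
        · exact hcon
    rw [if_neg]
    intro h
    have h2 : 1 * k ≤ (a0 + a1 + m) * k := Nat.mul_le_mul_right k (by omega)
    omega

end Pool.Agent.Q24.QM
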